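import Mathlib
import Pool.Agent.Results.MP_cbf366_nt.WindowsInSievedModels
import Pool.Agent.R481.RM.Inv
import Pool.Agent.R528.RM.BHFinal

set_option autoImplicit false

/-!
# The gap `π(y) - ρ(y)` in random models of the primes

We determine the limit of `π(y) - ρ(y)`, its size and the place of the first extremal windows in EVERY
sequential random model of the primes sieved by a fixed `Q`.  In these models the integers are
decided one after the other, only integers coprime to `Q` can be chosen, and the conditional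
probability of choosing `n + 1` (coprime to `Q`) given the past is asymptotic to
`(Q / φ(Q)) / log n`; no independence is assumed.  Almost surely, for the random set `S`:
`ρ_S(y)` is the largest number of integers coprime to `Q` in a window of length `y`, so
`(π_S(y) - ρ_S(y)) / y → - φ(Q) / Q` and `π_S(y) - ρ_S(y) → - ∞`; and if `m(y)` is the place of the
first window of length `y` with `ρ_S(y)` elements, then `log m(y) ∼ (φ(Q) / Q) y log y`.
-/

open MeasureTheory Filter Polynomial
open scoped Topology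

namespace Pool.Agent.Results.MP_5046ca_nt.GapInSievedModels

open Pool.Agent.Results.MP_cbf366_nt.WindowsInSievedModels (count rho coprimes count_cop)
open Pool.Agent.R481.RM

lemma pv_X (n : ℕ) : Pool.Agent.R528.RM.pv (X : ℤ[X]) n = n := by
  unfold Pool.Agent.R528.RM.pv
  rw [eval_X, Int.toNat_natCast]

lemma density_zero {Ω : Type} {A : ℕ → Set Ω} {ω : Ω} {C : ℝ}
    (h : Tendsto (fun x : ℕ => (∑ n ∈ Finset.range x,
      Pool.Agent.R528.RM.YY A Pool.Agent.R528.RM.pv ({X} : Finset ℤ[X]) n ω) *
      Real.log x ^ ({X} : Finset ℤ[X]).card / x) atTop (𝓝 C)) :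
    Tendsto (fun y : ℕ => (count {n | ω ∈ A n} 0 y : ℝ) / y) atTop (𝓝 0) := by
  classical
  have hsum : ∀ x : ℕ, ∑ n ∈ Finset.range x,
      Pool.Agent.R528.RM.YY A Pool.Agent.R528.RM.pv ({X} : Finset ℤ[X]) n ω =
      (((Finset.range x).filter (fun n => ω ∈ A n)).card : ℝ) := by
    intro x
    rw [← Finset.sum_boole]
    refine Finset.sum_congr rfl fun n _ => ?_
    unfold Pool.Agent.R528.RM.YY
    rw [Finset.prod_singleton, pv_X, Set.indicator_apply]
  simp only [hsum, Finset.card_singleton, pow_one] at h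
  have h1 : Tendsto (fun x : ℕ => (((Finset.range x).filter (fun n => ω ∈ A n)).card : ℝ) * Real.log x / x *
      (Real.log x)⁻¹) atTop (𝓝 (C * 0)) :=
    h.mul (tendsto_inv_atTop_zero.comp tlog)
  rw [mul_zero] at h1
  have h2 : Tendsto (fun x : ℕ => (((Finset.range x).filter (fun n => ω ∈ A n)).card : ℝ) * Real.log x / x *
      (Real.log x)⁻¹ + 1 / (x : ℝ)) atTop (𝓝 (0 + 0)) :=
    h1.add (tendsto_const_nhds.div_atTop tendsto_natCast_atTop_atTop)
  rw [add_zero] at h2
  refine squeeze_zero' (Eventually.of_forall fun y => by positivity) ?_ h2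
  filter_upwards [tlog.eventually_ge_atTop 1] with y hy
  have e1 : (((Finset.range y).filter (fun n => ω ∈ A n)).card : ℝ) * Real.log y / y * (Real.log y)⁻¹ + 1 / (y : ℝ) =
      (((Finset.range y).filter (fun n => ω ∈ A n)).card + 1) / y := by
    have : Real.log (y : ℝ) ≠ 0 := by linarith
    field_simp
  rw [e1]
  apply div_le_div_of_nonneg_right _ (Nat.cast_nonneg _)
  have e2 : count {n | ω ∈ A n} 0 y ≤ ((Finset.range (y + 1)).filter (fun n => ω ∈ A n)).card := by
    rw [← Set.ncard_coe_finset]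
    unfold count
    apply Set.ncard_le_ncard _ (Finset.finite_toSet _)
    rintro n ⟨h3, h4, h5⟩
    rw [Finset.mem_coe, Finset.mem_filter, Finset.mem_range]
    exact ⟨by omega, h3⟩
  have e3 : ((Finset.range (y + 1)).filter (fun n => ω ∈ A n)).card ≤
      ((Finset.range y).filter (fun n => ω ∈ A n)).card + 1 := by
    rw [Finset.range_add_one, Finset.filter_insert]
    split_ifs
    · exact Finset.card_insert_le _ _
    · exact Nat.le_succ _
  exact_mod_cast e2.trans e3

end Pool.Agent.Results.MP_5046ca_nt.GapInSievedModels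

open Pool.Agent.Results.MP_5046ca_nt.GapInSievedModels
open Pool.Agent.Results.MP_cbf366_nt.WindowsInSievedModels (count rho coprimes count_cop)
open Pool.Agent.R481.RM

/-- Let `A n` be the event that `n` belongs to a random set `S` adapted to a filtration `ℱ`, let
`Q ≥ 1`, let no integer which is not coprime to `Q` be chosen, and let the conditional probability of
`A (n + 1)` given `ℱ n`, times `log n`, tend to `Q / φ(Q)` along the `n` with `n + 1` coprime to `Q`,
almost surely.  Let `ρ_S(y)` be the limit superior of the number of elements of `S` in `(x, x + y]` and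
`π_S(y)` the number of elements of `S` in `(0, y]`.  Then almost surely:
(1) for every `y` the number `ρ_S(y)` is the largest number of integers coprime to `Q` in a window of
length `y`; (2) `π_S(y) - ρ_S(y)` tends to `- ∞`, and `(π_S(y) - ρ_S(y)) / y` to `- φ(Q) / Q`;
(3) for every `ε > 0` and all large `y` there is a window `(m, m + y]` with `ρ_S(y)` elements and
`log (m + y) ≤ (φ(Q) / Q + ε) y log y`, and none with `log m ≤ (φ(Q) / Q - ε) y log y`. -/
theorem Pool.Agent.Results.MP_5046ca_nt.GapInSievedModels.result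
    {Ω : Type} [mΩ : MeasurableSpace Ω] (μ : Measure Ω) [IsProbabilityMeasure μ]
    (ℱ : Filtration ℕ mΩ) (A : ℕ → Set Ω) (hA : ∀ n, MeasurableSet[ℱ n] (A n))
    (Q : ℕ) (hQ : 0 < Q) (hcop : ∀ n, ¬ Nat.Coprime n Q → A n = ∅)
    (hd : ∀ᵐ ω ∂μ, Tendsto (fun n : ℕ =>
      (μ[(A (n + 1)).indicator (fun _ => (1 : ℝ)) | ℱ n]) ω * Real.log n)
      (atTop ⊓ 𝓟 {n : ℕ | Nat.Coprime (n + 1) Q}) (𝓝 ((Q : ℝ) / Nat.totient Q))) :
    ∀ᵐ ω ∂μ,
      (∀ y : ℕ, IsGreatest (Set.range fun m => count (coprimes Q) m y) (rho {n | ω ∈ A n} y)) ∧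
      Tendsto (fun y : ℕ => (count {n | ω ∈ A n} 0 y : ℝ) - rho {n | ω ∈ A n} y) atTop atBot ∧
      Tendsto (fun y : ℕ => ((count {n | ω ∈ A n} 0 y : ℝ) - rho {n | ω ∈ A n} y) / y) atTop
        (𝓝 (-((Nat.totient Q : ℝ) / Q))) ∧
      (∀ ε : ℝ, 0 < ε → ∀ᶠ y : ℕ in atTop,
        (∃ m : ℕ, Real.log ((m + y : ℕ) : ℝ) ≤ ((Nat.totient Q : ℝ) / Q + ε) * y * Real.log y ∧
          count {n | ω ∈ A n} m y = rho {n | ω ∈ A n} y) ∧
        (∀ m : ℕ, Real.log m ≤ ((Nat.totient Q : ℝ) / Q - ε) * y * Real.log y →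
          count {n | ω ∈ A n} m y < rho {n | ω ∈ A n} y)) := by
  classical
  have hφ : (0 : ℝ) < Nat.totient Q := by exact_mod_cast Nat.totient_pos.2 hQ
  have hQ0 : (0 : ℝ) < Q := by exact_mod_cast hQ
  obtain ⟨c, hc⟩ : ∃ c : ℝ, c = (Nat.totient Q : ℝ) / Q := ⟨_, rfl⟩
  have hc0 : 0 < c := by rw [hc]; positivity
  have hc' : (Q : ℝ) / Nat.totient Q = 1 / c := by rw [hc]; field_simp
  rw [← hc]
  filter_upwards [Pool.Agent.Results.MP_cbf366_nt.WindowsInSievedModels.result μ ℱ A hA Q hQ hcop hd,
    Pool.Agent.R528.RM.bh_poly (μ := μ) (ℱ := ℱ) hA Q hQ hcop hd] with ω hω hlln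
  obtain ⟨-, hrho, -, hthr⟩ := hω
  have hdens := density_zero (hlln {X} (fun f hf => by
    rw [Finset.mem_singleton] at hf
    rw [hf]
    refine ⟨by rw [natDegree_X]; exact one_pos, by rw [leadingCoeff_X]; exact one_pos⟩))
  have hb : ∀ y : ℕ, (y : ℝ) * c - Nat.totient Q ≤ rho {n | ω ∈ A n} y ∧
      (rho {n | ω ∈ A n} y : ℝ) ≤ y * c + Nat.totient Q := by
    intro y
    obtain ⟨⟨m, hm⟩, -⟩ := hrho y
    have hm' : (copW Q m y).card = rho {n | ω ∈ A n} y := by
      rw [← count_cop]
      exact hm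
    rw [← hm', hc]
    exact ⟨le_card_copW' hQ m y, card_copW_le' hQ m y⟩
  have hrhoy : Tendsto (fun y : ℕ => (rho {n | ω ∈ A n} y : ℝ) / y) atTop (𝓝 c) := by
    have g0 : Tendsto (fun y : ℕ => (Nat.totient Q : ℝ) / (y : ℝ)) atTop (𝓝 0) :=
      tendsto_const_nhds.div_atTop tendsto_natCast_atTop_atTop
    have g1 : Tendsto (fun y : ℕ => c - (Nat.totient Q : ℝ) / (y : ℝ)) atTop (𝓝 (c - 0)) :=
      tendsto_const_nhds.sub g0
    have g2 : Tendsto (fun y : ℕ => c + (Nat.totient Q : ℝ) / (y : ℝ)) atTop (𝓝 (c + 0)) :=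
      tendsto_const_nhds.add g0
    rw [sub_zero] at g1
    rw [add_zero] at g2
    refine tendsto_of_tendsto_of_tendsto_of_le_of_le' g1 g2 ?_ ?_
    · filter_upwards [eventually_gt_atTop 0] with y hy
      have hy0 : (0 : ℝ) < y := by exact_mod_cast hy
      rw [le_div_iff₀ hy0, sub_mul, div_mul_cancel₀ _ hy0.ne']
      have := (hb y).1
      linarith
    · filter_upwards [eventually_gt_atTop 0] with y hy
      have hy0 : (0 : ℝ) < y := by exact_mod_cast hy
      rw [div_le_iff₀ hy0, add_mul, div_mul_cancel₀ _ hy0.ne']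
      have := (hb y).2
      linarith
  have hlim : Tendsto (fun y : ℕ => ((count {n | ω ∈ A n} 0 y : ℝ) - rho {n | ω ∈ A n} y) / y) atTop
      (𝓝 (-c)) := by
    have h := hdens.sub hrhoy
    rw [zero_sub] at h
    refine h.congr fun y => ?_
    rw [sub_div]
  refine ⟨hrho, ?_, hlim, ?_⟩
  · have h := hlim.neg_mul_atTop (by linarith : -c < 0) (tendsto_natCast_atTop_atTop (R := ℝ))
    refine h.congr' ?_
    filter_upwards [eventually_gt_atTop 0] with y hy
    have hy0 : (y : ℝ) ≠ 0 := by exact_mod_cast hy.ne'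
    rw [div_mul_cancel₀ _ hy0]
  · intro ε hε
    -- the upper bound
    have hδ : 0 < ε / (2 * (c + ε)) := by positivity
    have hup : ∀ᶠ y : ℕ in atTop, (y : ℝ) * Real.log (Real.log (xb (c + ε) y)) / Real.log (xb (c + ε) y) <
        (1 - ε / (2 * (c + ε))) * (1 / c) := by
      apply (inv_tendsto (show 0 < c + ε by positivity)).eventually_lt_const
      have e1 : (1 - ε / (2 * (c + ε))) * (1 / c) - 1 / (c + ε) = ε / (2 * c * (c + ε)) := by
        field_simp
        ring
      have e2 : 0 < ε / (2 * c * (c + ε)) := by positivity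
      linarith
    -- the lower bound
    obtain ⟨ε', hε'⟩ : ∃ ε' : ℝ, ε' = min ε (c / 2) := ⟨_, rfl⟩
    have hε'0 : 0 < ε' := by rw [hε']; exact lt_min hε (by linarith)
    have hε'1 : ε' ≤ ε := by rw [hε']; exact min_le_left _ _
    have hε'2 : ε' ≤ c / 2 := by rw [hε']; exact min_le_right _ _
    have hb0 : 0 < c - ε' := by linarith
    have hδ' : 0 < ε' / (2 * (c - ε')) := by positivity
    have hlow : ∀ᶠ y : ℕ in atTop, (1 + ε' / (2 * (c - ε'))) * (1 / c) <
        (y : ℝ) * Real.log (Real.log (xb (c - ε') y)) / Real.log (xb (c - ε') y) := by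
      apply (inv_tendsto hb0).eventually_const_lt
      have e1 : 1 / (c - ε') - (1 + ε' / (2 * (c - ε'))) * (1 / c) = ε' / (2 * c * (c - ε')) := by
        field_simp
        ring
      have e2 : 0 < ε' / (2 * c * (c - ε')) := by positivity
      linarith
    filter_upwards [hup, hlow, (txb (show 0 < c + ε by positivity)).eventually (hthr _ hδ),
      (txb hb0).eventually (hthr _ hδ'), log_xb (show 0 < c + ε by positivity), log_xb hb0,
      (tT (show 0 < c + ε by positivity)).eventually_ge_atTop 2, (tT hb0).eventually_ge_atTop 2,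
      (txb (show 0 < c + ε by positivity)).eventually_ge_atTop 1, tlog.eventually_ge_atTop 0] with
      y f1 f2 f3 f4 f5 f6 f7 f8 f9 f10
    constructor
    · have h1 : 0 < Real.log (xb (c + ε) y) := by linarith [f5.1]
      rw [div_lt_iff₀ h1] at f1
      obtain ⟨m, e1, e2, e3⟩ := (f3 y).1 (by rw [hc']; exact f1.le)
      refine ⟨m, ?_, e3⟩
      refine le_trans (Real.log_le_log ?_ ?_) f5.2
      · have : 0 < m + y := by omega
        exact_mod_cast this
      · exact_mod_cast e2
    · intro m hm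
      have h1 : 0 < Real.log (xb (c - ε') y) := by linarith [f6.1]
      rw [lt_div_iff₀ h1] at f2
      apply (f4 y).2 (by rw [hc']; exact f2.le) m
      rcases Nat.eq_zero_or_pos m with hm0 | hm0
      · rw [hm0]
        exact Nat.zero_le _
      · apply Nat.le_floor
        have hm0' : (0 : ℝ) < m := by exact_mod_cast hm0
        rw [← Real.exp_log hm0']
        apply Real.exp_le_exp.2
        refine hm.trans ?_
        have e1 : (c - ε) * y * Real.log y = (c - ε) * (y * Real.log y) := by ring
        have e2 : (c - ε') * y * Real.log y = (c - ε') * (y * Real.log y) := by ring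
        rw [e1, e2]
        exact mul_le_mul_of_nonneg_right (by linarith) (mul_nonneg (Nat.cast_nonneg _) f10)
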