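import Mathlib
import Pool.Agent.Results.MP_5046ca_nt.GapInSievedModels
import Pool.Agent.R481.RM.Viol

set_option autoImplicit false

/-!
# Where windows with more than `π(y)` elements appear in random models of the primes

The inequality `ρ(y) > π(y)` says that infinitely many windows `(m, m + y]` contain more than `π(y)`
primes.  In EVERY sequential random model of the primes sieved by a fixed `Q` (the integers are decided
one after the other, only integers coprime to `Q` can be chosen, and the conditional probability of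
choosing `n + 1`, coprime to `Q`, given the past is asymptotic to `(Q / φ(Q)) / log n`; no independence is
assumed) we determine where the first such windows are: almost surely, for all large `y`, there is none
with `y ^ (1 + ε) ≤ m ≤ exp ((1 - ε) y)`, and there is one with `m ≤ exp ((1 + ε) y)`.  More generally,
uniformly for all `j` between `π_S(y) + 1` and `ρ_S(y)` the first window of length `y` beyond
`y ^ (1 + ε)` with at least `j` elements is at `m = exp ((1 + o(1)) j log y)`.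
-/

open MeasureTheory Filter Polynomial
open scoped Topology

namespace Pool.Agent.Results.MP_5046ca_nt.FirstViolation

open Pool.Agent.Results.MP_cbf366_nt.WindowsInSievedModels (count rho coprimes count_cop)
open Pool.Agent.Results.MP_5046ca_nt.GapInSievedModels (pv_X)
open Pool.Agent.R481.RM

lemma bhConst_X {Q : ℕ} (hQ : 0 < Q) : Pool.Agent.R528.RM.bhConst Q ({X} : Finset ℤ[X]) = 1 := by
  classical
  have h1 : Nat.count (Pool.Agent.R528.RM.good ({X} : Finset ℤ[X]) Q) Q = Nat.totient Q := by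
    rw [Nat.count_eq_card_filter_range, Nat.totient_eq_card_coprime]
    congr 1
    apply Finset.filter_congr
    intro n _
    unfold Pool.Agent.R528.RM.good
    simp only [Finset.mem_singleton, forall_eq, eval_X, Int.gcd_natCast_natCast]
    rw [Nat.Coprime, Nat.gcd_comm]
  unfold Pool.Agent.R528.RM.bhConst
  rw [h1, Finset.card_singleton, Finset.prod_singleton, natDegree_X, pow_one]
  have hφ : (0 : ℝ) < Nat.totient Q := by exact_mod_cast Nat.totient_pos.2 hQ
  have hQ0 : (0 : ℝ) < Q := by exact_mod_cast hQ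
  field_simp
  norm_num

lemma law_count {Ω : Type} {A : ℕ → Set Ω} {ω : Ω}
    (h : Tendsto (fun x : ℕ => (∑ n ∈ Finset.range x,
      Pool.Agent.R528.RM.YY A Pool.Agent.R528.RM.pv ({X} : Finset ℤ[X]) n ω) *
      Real.log x ^ ({X} : Finset ℤ[X]).card / x) atTop (𝓝 1)) {δ : ℝ} (hδ : 0 < δ) :
    ∀ᶠ y : ℕ in atTop, (1 - δ) * y / Real.log y ≤ count {n | ω ∈ A n} 0 y ∧
      (count {n | ω ∈ A n} 0 y : ℝ) ≤ (1 + δ) * y / Real.log y := by
  classical
  have hsum : ∀ x : ℕ, ∑ n ∈ Finset.range x,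
      Pool.Agent.R528.RM.YY A Pool.Agent.R528.RM.pv ({X} : Finset ℤ[X]) n ω =
      (((Finset.range x).filter (fun n => ω ∈ A n)).card : ℝ) := by
    intro x
    rw [← Finset.sum_boole]
    refine Finset.sum_congr rfl fun n _ => ?_
    unfold Pool.Agent.R528.RM.YY
    rw [Finset.prod_singleton, pv_X, Set.indicator_apply]
  simp only [hsum, Finset.card_singleton, pow_one] at h
  have hsmall : Tendsto (fun y : ℕ => Real.log (y : ℝ) / y) atTop (𝓝 0) :=
    Real.isLittleO_log_id_atTop.tendsto_div_nhds_zero.comp tendsto_natCast_atTop_atTop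
  filter_upwards [h.eventually_lt_const (show (1 : ℝ) < 1 + δ / 2 by linarith),
    h.eventually_const_lt (show (1 : ℝ) - δ / 2 < 1 by linarith),
    hsmall.eventually_lt_const (show (0 : ℝ) < δ / 2 by linarith), Pool.Agent.R528.RM.ev_log 1, eventually_gt_atTop 0] with y h1 h2 h3 h4 h5
  have hy : (0 : ℝ) < y := by exact_mod_cast h5
  have hl : 0 < Real.log (y : ℝ) := by linarith
  rw [div_lt_iff₀ hy] at h1 h3
  rw [lt_div_iff₀ hy] at h2
  have hf : ({n | ω ∈ A n} ∩ Set.Ioc 0 (0 + y)).Finite := (Set.finite_Ioc _ _).subset Set.inter_subset_right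
  have c1 : count {n | ω ∈ A n} 0 y ≤ ((Finset.range y).filter (fun n => ω ∈ A n)).card + 1 := by
    have e1 : ({n | ω ∈ A n} ∩ Set.Ioc 0 (0 + y)) ⊆ ((insert y ((Finset.range y).filter (fun n => ω ∈ A n)) : Finset ℕ) : Set ℕ) := by
      rintro n ⟨g1, g2, g3⟩
      rw [Finset.mem_coe, Finset.mem_insert, Finset.mem_filter, Finset.mem_range]
      rcases Nat.lt_or_ge n y with h | h
      · exact Or.inr ⟨h, g1⟩
      · exact Or.inl (by omega)
    have e2 := Set.ncard_le_ncard e1 (Finset.finite_toSet _)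
    rw [Set.ncard_coe_finset] at e2
    exact e2.trans (Finset.card_insert_le _ _)
  have c2 : ((Finset.range y).filter (fun n => ω ∈ A n)).card ≤ count {n | ω ∈ A n} 0 y + 1 := by
    have e1 : (((Finset.range y).filter (fun n => ω ∈ A n) : Finset ℕ) : Set ℕ) ⊆ insert 0 ({n | ω ∈ A n} ∩ Set.Ioc 0 (0 + y)) := by
      intro n hn
      obtain ⟨g1, g2⟩ := Finset.mem_filter.1 (Finset.mem_coe.1 hn)
      have g3 := Finset.mem_range.1 g1
      rcases Nat.eq_zero_or_pos n with h | h
      · exact Or.inl h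
      · exact Or.inr ⟨g2, h, by omega⟩
    have e2 := Set.ncard_le_ncard e1 (hf.insert 0)
    rw [Set.ncard_coe_finset] at e2
    exact e2.trans (Set.ncard_insert_le _ _)
  have c1' : (count {n | ω ∈ A n} 0 y : ℝ) ≤ (((Finset.range y).filter (fun n => ω ∈ A n)).card : ℝ) + 1 := by exact_mod_cast c1
  have c2' : (((Finset.range y).filter (fun n => ω ∈ A n)).card : ℝ) ≤ (count {n | ω ∈ A n} 0 y : ℝ) + 1 := by exact_mod_cast c2
  constructor
  · rw [div_le_iff₀ hl]
    nlinarith
  · rw [le_div_iff₀ hl]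
    nlinarith

lemma cnt_eq {Ω : Type} {A : ℕ → Set Ω} {ω : Ω} (m y : ℕ) :
    Pool.Agent.R528.RM.cnt A m y ω = count {n | ω ∈ A n} m y := by
  classical
  unfold Pool.Agent.R528.RM.cnt count
  rw [Finset.sum_boole]
  have h1 : ({n | ω ∈ A n} ∩ Set.Ioc m (m + y)) = ((((Finset.range y).filter (fun r => ω ∈ A (m + 1 + r))).image (fun r => m + 1 + r) : Finset ℕ) : Set ℕ) := by
    ext n
    rw [Finset.mem_coe, Finset.mem_image]
    constructor
    · rintro ⟨g1, g2, g3⟩
      refine ⟨n - m - 1, Finset.mem_filter.2 ⟨Finset.mem_range.2 (by omega), ?_⟩, by omega⟩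
      rw [show m + 1 + (n - m - 1) = n by omega]
      exact g1
    · rintro ⟨r, g1, rfl⟩
      obtain ⟨g2, g3⟩ := Finset.mem_filter.1 g1
      have := Finset.mem_range.1 g2
      exact ⟨g3, by omega, by omega⟩
  rw [h1, Set.ncard_coe_finset, Finset.card_image_of_injective _ (fun a b h => by simpa using h)]
  simp

end Pool.Agent.Results.MP_5046ca_nt.FirstViolation

open Pool.Agent.Results.MP_5046ca_nt.FirstViolation Pool.Agent.R481.RM in
open Pool.Agent.Results.MP_cbf366_nt.WindowsInSievedModels (count rho coprimes count_cop) in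
/-- **The first windows with more than `π_S(y)` elements.**  Let `A n` (`n` is chosen) be adapted
events, empty unless `n` is coprime to `Q`, such that almost surely the conditional probability of
`A (n + 1)` given the past, times `log n`, tends to `Q / φ(Q)` along the `n` with `n + 1` coprime to `Q`;
let `S` be the random set of the chosen integers.  Then almost surely for every `ε > 0` and all large
`y`: (1) some window `(m, m + y]` with `m ≥ y²`, `log m ≤ (1 + ε) y` contains more elements of `S` than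
`(0, y]`, and no window with `m ≥ y ^ (1 + ε)`, `log m ≤ (1 - ε) y` does; (2) for ALL `j` with
`π_S(y) < j ≤ ρ_S(y)` some window with `m ≥ y²`, `log m ≤ (1 + ε) j log y` contains at least `j` elements,
and no window with `m ≥ y ^ (1 + ε)`, `log m ≤ (1 - ε) j log y` does. -/
theorem Pool.Agent.Results.MP_5046ca_nt.FirstViolation.result
    {Ω : Type} [mΩ : MeasurableSpace Ω] (μ : Measure Ω) [IsProbabilityMeasure μ]
    (ℱ : Filtration ℕ mΩ) (A : ℕ → Set Ω) (hA : ∀ n, MeasurableSet[ℱ n] (A n))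
    (Q : ℕ) (hQ : 0 < Q) (hcop : ∀ n, ¬ Nat.Coprime n Q → A n = ∅)
    (hd : ∀ᵐ ω ∂μ, Tendsto (fun n : ℕ =>
      (μ[(A (n + 1)).indicator (fun _ => (1 : ℝ)) | ℱ n]) ω * Real.log n)
      (atTop ⊓ 𝓟 {n : ℕ | Nat.Coprime (n + 1) Q}) (𝓝 ((Q : ℝ) / Nat.totient Q))) :
    ∀ᵐ ω ∂μ,
      (∀ ε : ℝ, 0 < ε → ∀ᶠ y : ℕ in atTop,
        (∃ m : ℕ, y ^ 2 ≤ m ∧ Real.log m ≤ (1 + ε) * y ∧
          count {n | ω ∈ A n} 0 y < count {n | ω ∈ A n} m y) ∧
        (∀ m : ℕ, (y : ℝ) ^ (1 + ε) ≤ m → Real.log m ≤ (1 - ε) * y →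
          count {n | ω ∈ A n} m y ≤ count {n | ω ∈ A n} 0 y)) ∧
      (∀ ε : ℝ, 0 < ε → ∀ᶠ y : ℕ in atTop, ∀ j : ℕ,
        count {n | ω ∈ A n} 0 y < j → j ≤ rho {n | ω ∈ A n} y →
        (∃ m : ℕ, y ^ 2 ≤ m ∧ Real.log m ≤ (1 + ε) * j * Real.log y ∧
          j ≤ count {n | ω ∈ A n} m y) ∧
        (∀ m : ℕ, (y : ℝ) ^ (1 + ε) ≤ m → Real.log m ≤ (1 - ε) * j * Real.log y →
          count {n | ω ∈ A n} m y < j)) := by
  classical
  have hprof := Pool.Agent.R528.RM.dens_profile (μ := μ) (ℱ := ℱ) hA Q hQ hcop hd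
  have htail : ∀ᵐ ω ∂μ, ∀ n : ℕ, ∀ᶠ y : ℕ in atTop, ∀ m : ℕ, (1 + 1 / ((n : ℝ) + 2)) * Real.log y ≤ Real.log m →
      (Pool.Agent.R528.RM.cnt A m y ω : ℝ) <
        max ((1 - (Real.log (1 + 1 / ((n : ℝ) + 2)) - 1 / ((n : ℝ) + 2) / (1 + 1 / ((n : ℝ) + 2))) / 4) * y / Real.log y)
          (Real.log m / ((1 - 1 / ((n : ℝ) + 2)) * Real.log y)) := by
    rw [ae_all_iff]
    intro n
    have e0 : (0 : ℝ) < 1 / ((n : ℝ) + 2) := by positivity
    have e1 : 1 / ((n : ℝ) + 2) < 1 := by
      rw [div_lt_one (by positivity)]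
      have : (0 : ℝ) ≤ n := Nat.cast_nonneg n
      linarith
    exact tail_law (μ := μ) (ℱ := ℱ) hA hQ hprof e0 e1 (by have := c0_pos e0; linarith) le_rfl
  filter_upwards [Pool.Agent.Results.MP_cbf366_nt.WindowsInSievedModels.result μ ℱ A hA Q hQ hcop hd,
    Pool.Agent.R528.RM.bh_poly (μ := μ) (ℱ := ℱ) hA Q hQ hcop hd, htail] with ω hω hlln htail
  obtain ⟨-, hrho, hpat, -⟩ := hω
  have hl1 := hlln {X} (fun f hf => by
    rw [Finset.mem_singleton] at hf
    rw [hf]
    refine ⟨by rw [natDegree_X]; exact one_pos, by rw [leadingCoeff_X]; exact one_pos⟩)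
  rw [bhConst_X hQ] at hl1
  have hlaw : ∀ δ : ℝ, 0 < δ → _ := fun δ hδ => law_count hl1 hδ
  set S : Set ℕ := {n | ω ∈ A n} with hS
  have hloglog : Tendsto (fun y : ℕ => Real.log (Real.log (y : ℝ)) / Real.log y) atTop (𝓝 0) := by
    have := Real.isLittleO_log_id_atTop.tendsto_div_nhds_zero.comp Pool.Agent.R528.RM.tendsto_log
    exact this
  -- existence of the windows
  have hex : ∀ ε : ℝ, 0 < ε → ε ≤ 1 → ∀ᶠ y : ℕ in atTop, ∀ j : ℕ, count S 0 y < j → j ≤ rho S y →
      ∃ m : ℕ, y ^ 2 ≤ m ∧ Real.log m ≤ (1 + ε) * j * Real.log y ∧ j ≤ count S m y := by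
    intro ε hε hε1
    obtain ⟨x₀, hx₀⟩ := eventually_atTop.1 (hpat (ε / 8) (by linarith))
    have hsq : ∀ᶠ y : ℕ in atTop, (x₀ : ℝ) + 2 * (y : ℝ) ^ 2 + 2 ≤ Real.exp (y / 2) := by
      have h1 : Tendsto (fun y : ℕ => ((y : ℝ) / 2) ^ 2 * Real.exp (-((y : ℝ) / 2))) atTop (𝓝 0) :=
        (Real.tendsto_pow_mul_exp_neg_atTop_nhds_zero 2).comp (tendsto_natCast_atTop_atTop.atTop_div_const (by norm_num))
      have h2 : Tendsto (fun y : ℕ => (y : ℝ) / 2) atTop atTop := tendsto_natCast_atTop_atTop.atTop_div_const (by norm_num)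
      filter_upwards [h1.eventually_lt_const (show (0 : ℝ) < 1 / 16 by norm_num),
        (Real.tendsto_exp_atTop.comp h2).eventually_ge_atTop (2 * ((x₀ : ℝ) + 2))] with y h3 h4
      have hep : 0 < Real.exp ((y : ℝ) / 2) := Real.exp_pos _
      rw [Real.exp_neg, ← div_eq_mul_inv, div_lt_iff₀ hep] at h3
      have h4' : 2 * ((x₀ : ℝ) + 2) ≤ Real.exp ((y : ℝ) / 2) := h4
      nlinarith
    filter_upwards [hlaw (1 / 2) (by norm_num), hsq, hloglog.eventually_lt_const (show (0 : ℝ) < ε / 16 by linarith),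
      Pool.Agent.R528.RM.ev_log (32 / ε), Pool.Agent.R528.RM.ev_log 1, eventually_ge_atTop ⌈400 / ε⌉₊, eventually_ge_atTop 3] with y h1 h2 h3 h4 h5 h6 h7 j hj1 hj2
    have hy3 : (3 : ℝ) ≤ y := by exact_mod_cast h7
    have hy0 : (0 : ℝ) < y := by linarith
    set L : ℝ := Real.log y with hL
    have hL0 : 0 < L := by linarith
    have h6' : 400 / ε ≤ y := Nat.ceil_le.1 h6
    rw [div_le_iff₀ hε] at h6'
    rw [div_le_iff₀ hε] at h4
    rw [div_lt_iff₀ hL0] at h3
    have hjL : (y : ℝ) / 2 ≤ j * L := by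
      have e1 : (1 - 1 / 2) * (y : ℝ) / L ≤ count S 0 y := h1.1
      have e2 : (count S 0 y : ℝ) ≤ j := by exact_mod_cast hj1.le
      have e3 := e1.trans e2
      rw [div_le_iff₀ hL0] at e3
      linarith
    -- `j ≤ 2 y`
    have hjy : (j : ℝ) ≤ y := by
      have e1 : rho S y ≤ y := by
        obtain ⟨⟨m₀, hm₀⟩, -⟩ := hrho y
        have hm₀' : count (coprimes Q) m₀ y = rho S y := hm₀
        rw [← hm₀']
        have e2 : (coprimes Q ∩ Set.Ioc m₀ (m₀ + y)).ncard ≤ (Set.Ioc m₀ (m₀ + y)).ncard :=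
          Set.ncard_le_ncard Set.inter_subset_right (Set.finite_Ioc _ _)
        have e3 : (Set.Ioc m₀ (m₀ + y)).ncard = y := by
          rw [← Finset.coe_Ioc, Set.ncard_coe_finset, Nat.card_Ioc]
          omega
        exact e2.trans e3.le
      exact_mod_cast hj2.trans e1
    set Z : ℝ := (1 + ε / 2) * (j * L) with hZ
    have hZ1 : (y : ℝ) / 2 ≤ Z := by rw [hZ]; nlinarith
    have hZ2 : Z ≤ 2 * y * L := by
      rw [hZ]
      have := mul_le_mul_of_nonneg_right hjy hL0.le
      nlinarith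
    have hZ0 : 0 < Z := by linarith
    set x : ℕ := ⌊Real.exp Z⌋₊ with hx
    have hx1 : (x : ℝ) ≤ Real.exp Z := Nat.floor_le (Real.exp_pos _).le
    have hx2 : Real.exp Z < x + 1 := Nat.lt_floor_add_one _
    have hexpZ : Real.exp ((y : ℝ) / 2) ≤ Real.exp Z := Real.exp_le_exp.2 hZ1
    have hx3 : (x₀ : ℝ) + 2 * (y : ℝ) ^ 2 + 1 ≤ x := by linarith
    have hxpos : (1 : ℝ) ≤ x := by nlinarith [Nat.cast_nonneg (α := ℝ) x₀, sq_nonneg (y : ℝ)]
    have hlx1 : Real.log x ≤ Z := by
      have := Real.log_le_log (by linarith) hx1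
      rwa [Real.log_exp] at this
    have hlx2 : Z - 1 ≤ Real.log x := by
      have e1 : Real.exp (Z - 1) ≤ x := by
        have e2 : Real.exp Z = Real.exp (Z - 1) * Real.exp 1 := by rw [← Real.exp_add]; congr 1; ring
        have e3 : (2 : ℝ) ≤ Real.exp 1 := by have := Real.add_one_le_exp (1 : ℝ); linarith
        have e4 : 0 < Real.exp (Z - 1) := Real.exp_pos _
        nlinarith
      have := Real.log_le_log (Real.exp_pos _) e1
      rwa [Real.log_exp] at this
    have hxx₀ : x₀ ≤ x := by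
      have : (x₀ : ℝ) ≤ x := by nlinarith [sq_nonneg (y : ℝ)]
      exact_mod_cast this
    obtain ⟨⟨m₀, hm₀⟩, -⟩ := hrho y
    have hm₀' : (coprimes Q ∩ Set.Ioc m₀ (m₀ + y)).ncard = rho S y := hm₀
    obtain ⟨R, hR1, hR2⟩ := Set.exists_subset_card_eq (s := coprimes Q ∩ Set.Ioc m₀ (m₀ + y)) (n := j) (by rw [hm₀']; exact hj2)
    have hlx0 : 0 < Real.log (x : ℝ) := by
      have : 400 ≤ y := by
        have : (400 : ℝ) ≤ y := by nlinarith
        exact_mod_cast this
      have : (400 : ℝ) ≤ y := by exact_mod_cast this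
      linarith
    have hy400 : (400 : ℝ) ≤ ε * y := by linarith
    obtain ⟨m, hm1, hm2, hm3, hm4⟩ := hx₀ x hxx₀ m₀ y R hR1 (by
      rw [hR2]
      have e1 : Real.log (Real.log x) ≤ L + ε / 16 * L + 1 := by
        have a1 : Real.log (Real.log x) ≤ Real.log (2 * y * L) := Real.log_le_log hlx0 (hlx1.trans hZ2)
        rw [Real.log_mul (by positivity) hL0.ne', Real.log_mul (by norm_num) hy0.ne'] at a1
        have a2 : Real.log 2 ≤ 1 := by linarith [Real.log_two_lt_d9]
        linarith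
      have e2 : L + ε / 16 * L + 1 ≤ (1 + ε / 8) * L := by nlinarith
      have e3 : (j : ℝ) * Real.log (Real.log x) ≤ (1 + ε / 8) * (j * L) := by
        have := mul_le_mul_of_nonneg_left (e1.trans e2) (Nat.cast_nonneg (α := ℝ) j)
        linarith
      have e4 : (y : ℝ) / Real.log x ≤ 4 := by
        rw [div_le_iff₀ hlx0]
        nlinarith
      have e5 : (1 - ε / 8) * (Z - 1) ≤ (1 - ε / 8) * Real.log x := mul_le_mul_of_nonneg_left hlx2 (by linarith)
      have e6 : (1 + ε / 8) * (j * L) + 4 ≤ (1 - ε / 8) * (Z - 1) := by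
        rw [hZ]
        have a1 : (1 - ε / 8) * ((1 + ε / 2) * (j * L) - 1) = (1 + 3 * ε / 8 - ε * ε / 16) * (j * L) - (1 - ε / 8) := by ring
        have a2 : ε * ε ≤ ε := by nlinarith
        have a3 : (1 + ε / 8 + 3 * ε / 16) * (j * L) ≤ (1 + 3 * ε / 8 - ε * ε / 16) * (j * L) := by
          apply mul_le_mul_of_nonneg_right _ (by positivity)
          linarith
        have a4 : 3 * ε / 16 * (y / 2) ≤ 3 * ε / 16 * (j * L) := mul_le_mul_of_nonneg_left hjL (by linarith)
        rw [a1]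
        nlinarith
      linarith)
    have hmx : (m : ℝ) ≤ x := by exact_mod_cast (by omega : m ≤ x)
    have hm0 : y ^ 2 ≤ m := by
      have : 2 * (y : ℝ) ^ 2 ≤ 2 * m := by
        have : (x : ℝ) ≤ 2 * m := by exact_mod_cast hm1
        nlinarith [Nat.cast_nonneg (α := ℝ) x₀]
      have : (y : ℝ) ^ 2 ≤ m := by linarith
      exact_mod_cast this
    refine ⟨m, hm0, ?_, ?_⟩
    · have hmp : (0 : ℝ) < m := by
        have : (0 : ℕ) < m := lt_of_lt_of_le (by positivity) hm0
        exact_mod_cast this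
      have e1 : Real.log m ≤ Z := (Real.log_le_log hmp hmx).trans hlx1
      refine e1.trans ?_
      rw [hZ]
      have : 0 ≤ (j : ℝ) * L := by positivity
      nlinarith
    · -- the translate of `R` lies in `S`
      have e1 : (fun n => n - m₀ + m) '' R ⊆ S ∩ Set.Ioc m (m + y) := by
        rintro _ ⟨n, hn, rfl⟩
        obtain ⟨g1, g2, g3⟩ := hR1 hn
        refine ⟨?_, ?_, ?_⟩
        · have := (hm4 (n - m₀) (by omega) (by omega)).2 (by rw [show m₀ + (n - m₀) = n by omega]; exact hn)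
          show ω ∈ A (n - m₀ + m)
          rwa [show n - m₀ + m = m + (n - m₀) by omega]
        · show m < n - m₀ + m
          omega
        · show n - m₀ + m ≤ m + y
          omega
      have e2 := Set.ncard_le_ncard e1 ((Set.finite_Ioc _ _).subset Set.inter_subset_right)
      rw [Set.ncard_image_of_injOn, hR2] at e2
      · exact e2
      · intro a ha b hb hab
        have g1 := (hR1 ha).2.1
        have g2 := (hR1 hb).2.1
        simp only at hab
        omega
  -- no such windows earlier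
  have hno : ∀ ε : ℝ, 0 < ε → ∀ᶠ y : ℕ in atTop, ∀ j : ℕ, count S 0 y < j → ∀ m : ℕ, (y : ℝ) ^ (1 + ε) ≤ m →
      Real.log m ≤ (1 - ε) * j * Real.log y → count S m y < j := by
    intro ε hε
    obtain ⟨n, hn⟩ := exists_nat_one_div_lt hε
    have e0 : (0 : ℝ) < 1 / ((n : ℝ) + 2) := by positivity
    have en : 1 / ((n : ℝ) + 2) < ε := lt_of_le_of_lt (by
      apply div_le_div_of_nonneg_left zero_le_one (by positivity)
      linarith) hn
    have e1 : 1 / ((n : ℝ) + 2) < 1 := by
      rw [div_lt_one (by positivity)]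
      have : (0 : ℝ) ≤ n := Nat.cast_nonneg n
      linarith
    have hc := c0_pos e0
    filter_upwards [htail n, hlaw _ (show 0 < (Real.log (1 + 1 / ((n : ℝ) + 2)) - 1 / ((n : ℝ) + 2) / (1 + 1 / ((n : ℝ) + 2))) / 4 by linarith),
      Pool.Agent.R528.RM.ev_log 1, eventually_ge_atTop 1] with y h1 h2 h3 h4 j hj m hm1 hm2
    have hy1 : (1 : ℝ) ≤ y := by exact_mod_cast h4
    have hL0 : 0 < Real.log (y : ℝ) := by linarith
    have hlm : (1 + ε) * Real.log y ≤ Real.log m := by
      have := Real.log_le_log (Real.rpow_pos_of_pos (by linarith) _) hm1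
      rwa [Real.log_rpow (by linarith)] at this
    have h5 := h1 m (le_trans (mul_le_mul_of_nonneg_right (by linarith) hL0.le) hlm)
    rw [cnt_eq] at h5
    by_contra hcon
    push Not at hcon
    have h6 : (j : ℝ) ≤ count S m y := by exact_mod_cast hcon
    have h7 : (count S 0 y : ℝ) ≤ j := by exact_mod_cast hj.le
    rcases lt_max_iff.1 h5 with h8 | h8
    · have h9 := h2.1
      have : (count S 0 y : ℝ) = count {n | ω ∈ A n} 0 y := rfl
      linarith
    · have h9 : (j : ℝ) < Real.log m / ((1 - 1 / ((n : ℝ) + 2)) * Real.log y) := lt_of_le_of_lt h6 h8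
      rw [lt_div_iff₀ (mul_pos (by linarith) hL0)] at h9
      have h10 : (1 - ε) * j * Real.log y ≤ (1 - 1 / ((n : ℝ) + 2)) * j * Real.log y := by
        apply mul_le_mul_of_nonneg_right _ hL0.le
        exact mul_le_mul_of_nonneg_right (by linarith) (Nat.cast_nonneg _)
      nlinarith
  -- `π_S(y) + 1 ≤ ρ_S(y)`
  have hlt : ∀ᶠ y : ℕ in atTop, count S 0 y + 1 ≤ rho S y := by
    have hφ : (0 : ℝ) < Nat.totient Q := by exact_mod_cast Nat.totient_pos.2 hQ
    have hQ0 : (0 : ℝ) < Q := by exact_mod_cast hQ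
    filter_upwards [hlaw 1 one_pos, Pool.Agent.R528.RM.ev_log (4 * (Q : ℝ)), eventually_ge_atTop (2 * Q * (Nat.totient Q + 1)), Pool.Agent.R528.RM.ev_log 1] with y h1 h2 h3 h4
    obtain ⟨⟨m₀, hm₀⟩, -⟩ := hrho y
    have hm' : (copW Q m₀ y).card = rho S y := by
      rw [← count_cop]
      exact hm₀
    have h5 := le_card_copW' hQ m₀ y
    rw [hm'] at h5
    have hL0 : 0 < Real.log (y : ℝ) := by linarith
    have h6 : (count S 0 y : ℝ) ≤ (1 + 1) * y / Real.log y := h1.2
    have h3' : 2 * (Q : ℝ) * (Nat.totient Q + 1) ≤ y := by exact_mod_cast h3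
    have h7 : (1 + 1) * (y : ℝ) / Real.log y ≤ y / (2 * Q) := by
      rw [div_le_div_iff₀ hL0 (by positivity)]
      have : (0 : ℝ) ≤ y := Nat.cast_nonneg y
      nlinarith
    have h8 : (y : ℝ) / Q ≤ y * (Nat.totient Q / Q) := by
      have h9 : (1 : ℝ) ≤ Nat.totient Q := by exact_mod_cast Nat.totient_pos.2 hQ
      rw [← mul_div_assoc]
      apply div_le_div_of_nonneg_right _ hQ0.le
      have : (0 : ℝ) ≤ y := Nat.cast_nonneg y
      nlinarith
    have h9 : (Nat.totient Q : ℝ) + 1 ≤ y / (2 * Q) := by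
      rw [le_div_iff₀ (by positivity)]
      linarith
    have h10 : (y : ℝ) / Q = y / (2 * Q) + y / (2 * Q) := by field_simp; ring
    have : (count S 0 y : ℝ) + 1 ≤ rho S y := by linarith
    exact_mod_cast this
  refine ⟨?_, ?_⟩
  · intro ε hε
    set ε' : ℝ := min ε 1 with hε'
    have hε'0 : 0 < ε' := lt_min hε one_pos
    have hε'1 : ε' ≤ 1 := min_le_right _ _
    have hε'2 : ε' ≤ ε := min_le_left _ _
    filter_upwards [hex (ε' / 4) (by linarith) (by linarith), hno (ε' / 2) (by linarith), hlaw (ε' / 8) (by linarith), hlt,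
      Pool.Agent.R528.RM.ev_log 1, eventually_ge_atTop ⌈8 / ε'⌉₊, eventually_ge_atTop 1,
      (Real.isLittleO_log_id_atTop.tendsto_div_nhds_zero.comp tendsto_natCast_atTop_atTop).eventually_lt_const (show (0 : ℝ) < ε' / 8 by linarith)]
      with y h1 h2 h3 h4 h5 h6 h7 h8
    have hy1 : (1 : ℝ) ≤ y := by exact_mod_cast h7
    have hy0 : (0 : ℝ) < y := by linarith
    have hL0 : 0 < Real.log (y : ℝ) := by linarith
    have h8' : Real.log (y : ℝ) < ε' / 8 * y := by
      have : Real.log (y : ℝ) / y < ε' / 8 := h8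
      rwa [div_lt_iff₀ hy0] at this
    obtain ⟨l1, l2⟩ := h3
    rw [div_le_iff₀ hL0] at l1
    rw [le_div_iff₀ hL0] at l2
    have l1' : (1 - ε' / 8) * y ≤ (count S 0 y : ℝ) * Real.log y := l1
    have l2' : (count S 0 y : ℝ) * Real.log y ≤ (1 + ε' / 8) * y := l2
    have hj1 : ((count S 0 y + 1 : ℕ) : ℝ) * Real.log y ≤ (1 + ε' / 4) * y := by
      push_cast
      linarith
    have hj2 : (1 - ε' / 8) * y ≤ ((count S 0 y + 1 : ℕ) : ℝ) * Real.log y := by
      push_cast
      linarith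
    constructor
    · obtain ⟨m, hm1, hm2, hm3⟩ := h1 (count S 0 y + 1) (Nat.lt_succ_self _) h4
      refine ⟨m, hm1, hm2.trans ?_, by omega⟩
      have e1 : (1 + ε' / 4) * ((count S 0 y + 1 : ℕ) : ℝ) * Real.log y ≤ (1 + ε' / 4) * ((1 + ε' / 4) * y) := by
        rw [mul_assoc]
        exact mul_le_mul_of_nonneg_left hj1 (by linarith)
      refine e1.trans ?_
      nlinarith
    · intro m hm1 hm2
      have e0 : (y : ℝ) ^ (1 + ε' / 2) ≤ m := (Real.rpow_le_rpow_of_exponent_le hy1 (by linarith)).trans hm1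
      have e1 := h2 (count S 0 y + 1) (Nat.lt_succ_self _) m e0 (by
        refine hm2.trans ?_
        have a1 : (1 - ε) * (y : ℝ) ≤ (1 - ε') * y := mul_le_mul_of_nonneg_right (by linarith) hy0.le
        have a2 : (1 - ε' / 2) * ((1 - ε' / 8) * (y : ℝ)) ≤ (1 - ε' / 2) * (((count S 0 y + 1 : ℕ) : ℝ) * Real.log y) :=
          mul_le_mul_of_nonneg_left hj2 (by linarith)
        have a3 : (1 - ε') * (y : ℝ) ≤ (1 - ε' / 2) * ((1 - ε' / 8) * y) := by nlinarith
        linarith)
      omega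
  · intro ε hε
    set ε' : ℝ := min ε 1 with hε'
    have hε'0 : 0 < ε' := lt_min hε one_pos
    have hε'1 : ε' ≤ 1 := min_le_right _ _
    have hε'2 : ε' ≤ ε := min_le_left _ _
    filter_upwards [hex ε' hε'0 hε'1, hno ε hε, Pool.Agent.R528.RM.ev_log 1] with y h1 h2 h3 j hj1 hj2
    refine ⟨?_, fun m hm1 hm2 => h2 j hj1 m hm1 hm2⟩
    obtain ⟨m, hm1, hm2, hm3⟩ := h1 j hj1 hj2
    refine ⟨m, hm1, hm2.trans ?_, hm3⟩
    have : 0 ≤ (j : ℝ) * Real.log y := by positivity
    nlinarith
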