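import Mathlib
import Pool.Agent.R935.GS.HR
import Pool.Agent.R935.GS.Exist

set_option autoImplicit false

/-!
# The gap `π(y) - ρ(y)` for random sets sieved by growing moduli

The integers are decided one after the other; only integers `n` without prime factors `≤ z n` can be chosen,
where `z` tends to infinity (as fast as `(1 - κ) log n`, or as slowly as we please), and the conditional
probability of the choice is at least `n ^ (-o(1))`, for instance of the order `log (z n) / log n`; no
independence is assumed. Almost surely `ρ_S(y)`, the limsup of the number of elements of the random set `S` in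
`(x, x + y]`, is for ALL `y` the largest size of an admissible set in an interval of length `y`: the value that
the prime `k`-tuples conjecture gives for the primes. By the improved Hensley-Richards theorem of the starting
files, the limit of `π(y) - ρ_S(y)` is `-∞`, with a rate.
-/

namespace Pool.Agent.Results.MP_5046ca_nt.GrowingSieves

open Finset Filter MeasureTheory ProbabilityTheory
open Pool.Agent.R935.GS

/-- the models exist: independent choices with arbitrary probabilities `p n ≥ n ^ (-o(1))` -/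
lemma models_exist (z : ℕ → ℕ) (p : ℕ → ℝ) (hp0 : ∀ n, 0 ≤ p n) (hp1 : ∀ n, p n ≤ 1) (hmono : Monotone z)
    (htend : Tendsto z atTop atTop)
    (hslow : ∃ κ : ℝ, 0 < κ ∧ ∀ᶠ n : ℕ in atTop, (primorial (z n) : ℝ) ≤ (n : ℝ) ^ (1 - κ))
    (hs : ∀ n, ¬ Free (z n) n → p n = 0)
    (hl : ∀ δ : ℝ, 0 < δ → ∀ᶠ n : ℕ in atTop, Free (z n) n → (n : ℝ) ^ (-δ) ≤ p n) :
    ∃ (μ : Measure (ℕ → Bool)) (_ : IsProbabilityMeasure μ) (ℱ : Filtration ℕ MeasurableSpace.pi)
      (A : ℕ → Set (ℕ → Bool)), Model μ ℱ z A ∧ iIndepSet A μ ∧ ∀ n, μ.real (A n) = p n :=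
  exists_model z p hp0 hp1 hmono htend hslow hs hl

/-- **The gap `π(y) - ρ(y)` for random sets sieved by growing moduli.** In every model:
(1) almost surely, for all `y`, the limsup of the number of elements of the random set in `(x, x + y]` is
`rhoStar y`, the largest size of an admissible subset of `{1, ..., y}`;
(2) for `α < 1 / 2` and all large `y`, `π(y) - rhoStar y ≤ - α y log log log y / (log y) ^ 2`;
(3) hence, almost surely, `π(y) - ρ_S(y) → - ∞`: if `ρ y` is this limsup for every `y`, then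
`π(y) - ρ y → - ∞`. -/
theorem result {Ω : Type} [m0 : MeasurableSpace Ω] (μ : Measure Ω) [IsProbabilityMeasure μ]
    (ℱ : Filtration ℕ m0) (z : ℕ → ℕ) (A : ℕ → Set Ω) (hM : Model μ ℱ z A) :
    (∀ᵐ ω ∂μ, ∀ y : ℕ, IsRho {n | ω ∈ A n} y (rhoStar y)) ∧
    (∀ α : ℝ, α < 1 / 2 → ∀ᶠ y : ℕ in atTop, (Nat.primeCounting y : ℝ) - rhoStar y ≤
      -(α * (y * Real.log (Real.log (Real.log y)) / (Real.log y) ^ 2))) ∧
    ∀ᵐ ω ∂μ, ∀ ρ : ℕ → ℕ, (∀ y, IsRho {n | ω ∈ A n} y (ρ y)) →
      Tendsto (fun y : ℕ => (Nat.primeCounting y : ℝ) - ρ y) atTop atBot := by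
  have h2 : ∀ α : ℝ, α < 1 / 2 → ∀ᶠ y : ℕ in atTop, (Nat.primeCounting y : ℝ) - rhoStar y ≤
      -(α * (y * Real.log (Real.log (Real.log y)) / (Real.log y) ^ 2)) := by
    intro α hα
    filter_upwards [hr α hα] with y hy
    linarith
  refine ⟨rho_eq hM, h2, ?_⟩
  filter_upwards [rho_eq hM] with ω hω ρ hρ
  have huniq : ∀ y, ρ y = rhoStar y := by
    intro y
    obtain ⟨a1, a2⟩ := hρ y
    obtain ⟨b1, b2⟩ := hω y
    obtain ⟨x, hx1, hx2⟩ := (a2.and_eventually b1).exists
    obtain ⟨x', hx1', hx2'⟩ := (b2.and_eventually a1).exists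
    omega
  have h3 : Tendsto (fun y : ℕ => -(1 / 4 * ((y : ℝ) * Real.log (Real.log (Real.log y)) /
      (Real.log y) ^ 2))) atTop atBot :=
    tendsto_neg_atTop_atBot.comp (growth.const_mul_atTop (by norm_num))
  refine tendsto_atBot_mono' _ ?_ h3
  filter_upwards [h2 (1 / 4) (by norm_num)] with y hy
  rw [huniq y]
  exact hy

end Pool.Agent.Results.MP_5046ca_nt.GrowingSieves
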