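import Pool.Agent.Results.MP_49610d_nt.BoundedRandomMoves

set_option autoImplicit false

/-!
# `ρ(y)` for slightly moved primes

For a set `S` of positive integers let `ρ_S(y)` be the largest number of elements of `S` which occurs in
infinitely many windows `(x, x + y]`, so that `ρ(y)` of the problem is `ρ_S(y)` for the set of the primes.

Every large prime `p` stays where it is with probability `1 - δ`, and with probability `δ` it is moved to `p + 2 i`
with a uniformly random `1 ≤ i ≤ W(p)`, independently of the others; `0 < δ ≤ 1` is fixed, as small as one likes.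
Let `S` be the resulting random set.

(1) If `W → ∞`, arbitrarily slowly, then almost surely `ρ_S(y) = ⌈y / 2⌉` for ALL `y ≥ 1`; so `π(y) - ρ_S(y) → -∞`, and
the answer to the question is negative for `S`.

(2) Moves by at most a constant suffice for each range: for every `Y` there is `L` such that `ρ_S(y) = ⌈y / 2⌉` for all
`1 ≤ y ≤ Y` almost surely, if `W ≥ L` (for example for `W = L`); as `π(y) ≤ y / 3 + 6`, the number `π(y) - ρ_S(y)` is then
less than any given bound for a suitable `y ≤ Y`, `Y` large.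

The proof uses the patterns of `MP_49610d_nt.BoundedRandomMoves` (helper526), that is, the theorem of Maynard and
Tao with counts, and that all large elements of `S` are odd.
-/

open MeasureTheory ProbabilityTheory Filter Topology

namespace Pool.Agent.Results.MP_5046ca_nt.MovedPrimes

open Pool.Agent.Results.MP_49610d_nt.BoundedRandomMoves (Moves S)

/-- the number of elements of `T` in the window `(x, x + y]` -/
noncomputable def count (T : Set ℕ) (x y : ℕ) : ℕ := (T ∩ Set.Ioc x (x + y)).ncard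

/-- `r` is the largest number of elements of `T` which occurs in infinitely many windows `(x, x + y]`:
`r = limsup_x |T ∩ (x, x + y]|` -/
def IsRho (T : Set ℕ) (y r : ℕ) : Prop :=
  (∀ᶠ x : ℕ in atTop, count T x y ≤ r) ∧ {x : ℕ | count T x y = r}.Infinite

/-- the primes: `IsRho {p | p.Prime} y r` says `r = limsup (π(x + y) - π(x))` -/
theorem isRho_primes (y r : ℕ) : IsRho {p : ℕ | p.Prime} y r ↔
    (∀ᶠ x : ℕ in atTop, Nat.primeCounting (x + y) - Nat.primeCounting x ≤ r) ∧
      {x : ℕ | Nat.primeCounting (x + y) - Nat.primeCounting x = r}.Infinite := by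
  have h : ∀ x : ℕ, count {p : ℕ | p.Prime} x y = Nat.primeCounting (x + y) - Nat.primeCounting x := by
    intro x
    have h1 : ∀ z : ℕ, Nat.primeCounting z = ({p : ℕ | p.Prime} ∩ Set.Iic z).ncard := by
      intro z
      rw [Nat.primeCounting, Nat.primeCounting', Nat.count_eq_card_filter_range, ← Set.ncard_coe_finset]
      congr 1
      ext p
      simp [and_comm]
    have hfin : ∀ z : ℕ, ({p : ℕ | p.Prime} ∩ Set.Iic z).Finite := fun z =>
      (Set.finite_Iic z).subset Set.inter_subset_right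
    have h2 : {p : ℕ | p.Prime} ∩ Set.Ioc x (x + y) =
        ({p : ℕ | p.Prime} ∩ Set.Iic (x + y)) \ ({p : ℕ | p.Prime} ∩ Set.Iic x) := by
      ext p
      simp only [Set.mem_inter_iff, Set.mem_ofPred_eq, Set.mem_Ioc, Set.mem_sdiff, Set.mem_Iic, not_and, not_le]
      constructor
      · rintro ⟨h1, h2, h3⟩
        exact ⟨⟨h1, h3⟩, fun _ => h2⟩
      · rintro ⟨⟨h1, h2⟩, h3⟩
        exact ⟨h1, h3 h1, h2⟩
    rw [count, h2, h1, h1, Set.ncard_sdiff _ (hfin x)]
    intro p hp
    exact ⟨hp.1, le_trans hp.2 (Nat.le_add_right _ _)⟩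
  unfold IsRho
  simp only [h]

/-- a window contains at most `⌈y / 2⌉` odd numbers -/
lemma odd_bound (T : Set ℕ) (N x y : ℕ) (hx : N ≤ x) (hT : ∀ m ∈ T, N < m → Odd m) :
    count T x y ≤ (y + 1) / 2 := by
  have h1 : T ∩ Set.Ioc x (x + y) ⊆ (fun k => 2 * k + 1) '' Set.Ico (x / 2 + (x % 2)) ((x + y + 1) / 2) := by
    rintro m ⟨hm, hm1, hm2⟩
    obtain ⟨k, hk⟩ := hT m hm (by omega)
    refine ⟨k, ⟨?_, ?_⟩, hk.symm⟩
    · omega
    · omega
  have hfin : (Set.Ico (x / 2 + (x % 2)) ((x + y + 1) / 2)).Finite := Set.finite_Ico _ _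
  have h2 := Set.ncard_le_ncard h1 (hfin.image _)
  have h3 := Set.ncard_image_le (f := fun k => 2 * k + 1) hfin
  have h4 : (Set.Ico (x / 2 + (x % 2)) ((x + y + 1) / 2)).ncard = (x + y + 1) / 2 - (x / 2 + (x % 2)) := by
    rw [← Finset.coe_Ico, Set.ncard_coe_finset, Nat.card_Ico]
  unfold count
  omega

/-- the pattern `0, 2, …` fills a window -/
lemma pattern_count (T : Set ℕ) (n y : ℕ) (hn : 1 ≤ n) (hy : 1 ≤ y)
    (h : ∀ j ≤ y - 1, n + j ∈ T ↔ j ∈ (Finset.range ((y + 1) / 2)).image (fun k => 2 * k)) :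
    count T (n - 1) y = (y + 1) / 2 := by
  have h1 : T ∩ Set.Ioc (n - 1) (n - 1 + y) =
      (((Finset.range ((y + 1) / 2)).image (fun k => n + 2 * k) : Finset ℕ) : Set ℕ) := by
    ext m
    simp only [Set.mem_inter_iff, Set.mem_Ioc, Finset.coe_image, Finset.coe_range, Set.mem_image, Set.mem_Iio]
    constructor
    · rintro ⟨h1, h2, h3⟩
      have h4 := (h (m - n) (by omega)).1 (by
        have : n + (m - n) = m := by omega
        rwa [this])
      simp only [Finset.mem_image, Finset.mem_range] at h4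
      obtain ⟨k, hk1, hk2⟩ := h4
      exact ⟨k, hk1, by omega⟩
    · rintro ⟨k, hk1, hk2⟩
      refine ⟨?_, by omega, by omega⟩
      have h4 := (h (2 * k) (by omega)).2 (by
        simp only [Finset.mem_image, Finset.mem_range]
        exact ⟨k, hk1, rfl⟩)
      rwa [hk2] at h4
  rw [count, h1, Set.ncard_coe_finset, Finset.card_image_of_injective, Finset.card_range]
  intro a b hab
  simp only at hab
  omega

/-- all large elements of `S` are odd -/
lemma S_odd {Ω : Type} (i : ℕ → Ω → ℕ) (w : Ω) : ∀ m ∈ S i w, 2 + 2 * i 2 w < m → Odd m := by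
  rintro m ⟨p, hp, rfl⟩ hm
  rcases hp.eq_two_or_odd' with h | h
  · subst h
    omega
  · exact h.add_even (even_two_mul _)

lemma isRho_of {Ω : Type} (i : ℕ → Ω → ℕ) (w : Ω) (y : ℕ) (hy : 1 ≤ y)
    (h : {n : ℕ | ∀ j ≤ y - 1, n + j ∈ S i w ↔ j ∈ (Finset.range ((y + 1) / 2)).image (fun k => 2 * k)}.Infinite) :
    IsRho (S i w) y ((y + 1) / 2) := by
  refine ⟨?_, ?_⟩
  · filter_upwards [eventually_ge_atTop (2 + 2 * i 2 w)] with x hx
    exact odd_bound _ _ x y hx (S_odd i w)
  · apply Set.infinite_of_forall_exists_gt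
    intro K
    obtain ⟨n, hn1, hn2⟩ := h.exists_gt (K + 1)
    exact ⟨n - 1, pattern_count _ n y (by omega) hy hn1, by omega⟩

lemma even_pattern (y : ℕ) : ∀ j ∈ (Finset.range ((y + 1) / 2)).image (fun k => 2 * k), Even j ∧ j ≤ y - 1 := by
  intro j hj
  simp only [Finset.mem_image, Finset.mem_range] at hj
  obtain ⟨k, hk1, hk2⟩ := hj
  exact ⟨⟨k, by omega⟩, by omega⟩

/-- `π(y) ≤ y / 3 + 6` -/
lemma pi_le (y : ℕ) : (Nat.primeCounting y : ℝ) ≤ y / 3 + 6 := by
  have h := Nat.primeCounting'_add_le (a := 6) (k := 7) (by norm_num) (by norm_num) (y + 1)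
  have h1 : Nat.totient 6 = 2 := by decide
  have h2 : Nat.primeCounting' 7 = 3 := by decide
  rw [h1, h2] at h
  have h3 : Nat.primeCounting y ≤ Nat.primeCounting' (7 + (y + 1)) := by
    rw [Nat.primeCounting]
    exact Nat.monotone_primeCounting' (by omega)
  have h4 : 3 * Nat.primeCounting y ≤ y + 18 := by omega
  have h5 : (3 : ℝ) * Nat.primeCounting y ≤ y + 18 := by exact_mod_cast h4
  linarith

/-- (1) Let `W` be nondecreasing with `W (2 n) ≤ D * W n` for large `n`, `log (W n) / log n → 0` and `W n → ∞`. Then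
almost surely `ρ_S(y) = ⌈y / 2⌉` for all `y ≥ 1`, and for every function `ρ` with this property `π(y) - ρ(y) → -∞`.
(2) For every `Y` there is `L` such that the same conditions with `L ≤ W n` for large `n` instead of `W n → ∞` imply
that almost surely `ρ_S(y) = ⌈y / 2⌉` for all `1 ≤ y ≤ Y`. -/
theorem result :
    (∀ (D δ : ℝ), 1 ≤ D → 0 < δ → δ ≤ 1 → ∀ (W : ℕ → ℕ), Monotone W →
      (∀ᶠ n : ℕ in atTop, (W (2 * n) : ℝ) ≤ D * W n) →
      Tendsto (fun n : ℕ => Real.log (W n) / Real.log n) atTop (𝓝 0) → Tendsto W atTop atTop →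
      ∀ (Ω : Type) [MeasurableSpace Ω] (μ : Measure Ω) [IsProbabilityMeasure μ] (i : ℕ → Ω → ℕ),
      Moves δ W Ω μ i → ∀ᵐ w ∂μ, (∀ y : ℕ, 1 ≤ y → IsRho (S i w) y ((y + 1) / 2)) ∧
        ∀ ρ : ℕ → ℕ, (∀ y, IsRho (S i w) y (ρ y)) →
          Tendsto (fun y : ℕ => (Nat.primeCounting y : ℝ) - ρ y) atTop atBot) ∧
    (∀ Y : ℕ, ∃ L : ℕ, ∀ (D δ : ℝ), 1 ≤ D → 0 < δ → δ ≤ 1 → ∀ (W : ℕ → ℕ), Monotone W →
      (∀ᶠ n : ℕ in atTop, (W (2 * n) : ℝ) ≤ D * W n) →
      Tendsto (fun n : ℕ => Real.log (W n) / Real.log n) atTop (𝓝 0) → (∀ᶠ n : ℕ in atTop, L ≤ W n) →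
      ∀ (Ω : Type) [MeasurableSpace Ω] (μ : Measure Ω) [IsProbabilityMeasure μ] (i : ℕ → Ω → ℕ),
      Moves δ W Ω μ i → ∀ᵐ w ∂μ, ∀ y : ℕ, 1 ≤ y → y ≤ Y → IsRho (S i w) y ((y + 1) / 2)) := by
  obtain ⟨-, h2, h3⟩ := Pool.Agent.Results.MP_49610d_nt.BoundedRandomMoves.result
  refine ⟨?_, ?_⟩
  · intro D δ hD hδ0 hδ1 W hmono hdbl hW hWinf Ω _ μ _ i hi
    filter_upwards [h3 D δ hD hδ0 hδ1 W hmono hdbl hW hWinf Ω μ i hi] with w hw
    have hrho : ∀ y : ℕ, 1 ≤ y → IsRho (S i w) y ((y + 1) / 2) := fun y hy =>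
      isRho_of i w y hy (hw (y - 1) _ (even_pattern y))
    refine ⟨hrho, ?_⟩
    intro ρ hρ
    have hle : ∀ y : ℕ, 1 ≤ y → (y + 1) / 2 ≤ ρ y := by
      intro y hy
      obtain ⟨N, hN⟩ := eventually_atTop.1 (hρ y).1
      obtain ⟨x, hx1, hx2⟩ := (hrho y hy).2.exists_gt N
      have := hN x hx2.le
      rw [Set.mem_ofPred_eq] at hx1
      omega
    have hup : Tendsto (fun y : ℕ => 6 + -((y : ℝ) / 6)) atTop atBot := by
      have : Tendsto (fun y : ℕ => (y : ℝ) / 6) atTop atTop :=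
        tendsto_natCast_atTop_atTop.atTop_div_const (by norm_num)
      exact tendsto_atBot_add_const_left _ 6 (tendsto_neg_atTop_atBot.comp this)
    refine tendsto_atBot_mono' _ ?_ hup
    filter_upwards [eventually_ge_atTop 1] with y hy
    have e1 := pi_le y
    have e2 : (y : ℝ) / 2 ≤ ρ y := by
      have e3 := hle y hy
      have e4 : y ≤ 2 * ρ y := by omega
      have : (y : ℝ) ≤ 2 * ρ y := by exact_mod_cast e4
      linarith
    linarith
  · intro Y
    obtain ⟨C, hC⟩ := h2 Y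
    refine ⟨Y + C, ?_⟩
    intro D δ hD hδ0 hδ1 W hmono hdbl hW hWL Ω _ μ _ i hi
    filter_upwards [hC D δ hD hδ0 hδ1 W hmono hdbl hW Ω μ i hi] with w hw y hy1 hyY
    refine isRho_of i w y hy1 (hw (y - 1) _ ?_ ?_ (even_pattern y))
    · filter_upwards [hWL] with n hn
      omega
    · exact (Finset.card_image_le.trans (by rw [Finset.card_range]; omega))

end Pool.Agent.Results.MP_5046ca_nt.MovedPrimes
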